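import Pool.Agent.Helper282.DistR

set_option autoImplicit false

namespace Pool.Agent.Results.MP_b53a41_al.FiniteCommutatorExceptions

open Pool.Agent.H282Dist

/-- A left and right distributive domain in which only finitely many maximal two-sided ideals
`M` satisfy `1 ∈ [R, R] + M` is semihereditary on both sides. -/
theorem result :
    ∀ (R : Type) [Ring R] [IsDomain R],
      (∀ a b c : Submodule R R, a ⊓ (b ⊔ c) = (a ⊓ b) ⊔ (a ⊓ c)) →
      (∀ a b c : Submodule Rᵐᵒᵖ R, a ⊓ (b ⊔ c) = (a ⊓ b) ⊔ (a ⊓ c)) →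
      {M : TwoSidedIdeal R | IsCoatom M ∧
        ∃ c ∈ AddSubgroup.closure {x : R | ∃ a b : R, x = a * b - b * a}, 1 - c ∈ M}.Finite →
      (∀ I : Submodule R R, I.FG → Module.Projective R I) ∧
      (∀ I : Submodule Rᵐᵒᵖ R, I.FG → Module.Projective Rᵐᵒᵖ I) := by
  intro R _ _ hL hR hfin
  obtain ⟨K, hK, φ, hφ, hfrac⟩ := exists_frac R (elemL R hL)
  have hRP : RP φ.range := frac_RP φ hφ hfrac (elemR R hR)
  have hLP : LP φ.range := frac_LP φ hφ hfrac (elemR R hR) (elemL R hL)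
  have hf : {M : Set K | Pl φ.range M ∧ Bad φ.range M}.Finite := by
    refine (hfin.image (fun N : TwoSidedIdeal R => φ '' {r | r ∈ N})).subset ?_
    rintro M ⟨hM, hb⟩
    exact ⟨toTwo φ hM, ⟨toTwo_coatom φ hM, toTwo_bad φ hM hb⟩, (toTwo_image φ hM).symm⟩
  refine ⟨?_, ?_⟩
  · refine proj_left φ hφ ?_
    intro ι _ _ a ha
    exact prj_of_finite_bad hLP hRP (exists_pl hLP) hf a ha
  · refine proj_right φ hφ ?_
    intro ι _ _ a ha
    refine prj_of_finite_bad (LP_op hRP) (RP_op hLP) (exists_pl (LP_op hRP)) ?_ a ha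
    refine (hf.image (fun N : Set K => MulOpposite.unop ⁻¹' N)).subset ?_
    rintro M ⟨hM, hb⟩
    exact ⟨MulOpposite.op ⁻¹' M, ⟨Pl_unop hM, Bad_unop hb⟩, rfl⟩

end Pool.Agent.Results.MP_b53a41_al.FiniteCommutatorExceptions
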